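import Pool.Agent.Y466.TW.Stm
set_option autoImplicit false

/-! # The product class on an ordered sum and its Gram matrix -/


namespace Pool.Agent.Y407.TW

open Matrix hiding vec gram
open Pool.Agent.Y466.TW
open scoped Kronecker

section

variable {ι κ : Type}

/-- the part of `prodW` which comes from the two factors -/
def mW (wA : ι → ι → ι → ι → ℤ) (wB : κ → κ → κ → κ → ℤ) (a b c d : ι ⊕ κ) : ℤ :=
  match a, b, c, d with
    | .inl i, .inl j, .inl k, .inl l => wA i j k l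
    | .inr i, .inr j, .inr k, .inr l => wB i j k l
    | _, _, _, _ => 0

lemma mW_alt (wA : ι → ι → ι → ι → ℤ) (wB : κ → κ → κ → κ → ℤ) (hA : Alt wA) (hB : Alt wB) :
    Alt (mW wA wB) := by
  obtain ⟨a1, a2, a3⟩ := hA
  obtain ⟨b1, b2, b3⟩ := hB
  refine ⟨?_, ?_, ?_⟩
  · rintro (i | i) (j | j) (k | k) (l | l) <;> simp only [mW, neg_zero]
    · exact a1 i j k l
    · exact b1 i j k l
  · rintro (i | i) (j | j) (k | k) (l | l) <;> simp only [mW, neg_zero]
    · exact a2 i j k l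
    · exact b2 i j k l
  · rintro (i | i) (j | j) (k | k) (l | l) <;> simp only [mW, neg_zero]
    · exact a3 i j k l
    · exact b3 i j k l

/-- the wedge of two skew matrices -/
def sW {α : Type} (S T : Matrix α α ℤ) (a b c d : α) : ℤ :=
  S a b * T c d - S a c * T b d + S a d * T b c + S b c * T a d - S b d * T a c + S c d * T a b

lemma sW_alt {α : Type} (S T : Matrix α α ℤ) (hS : ∀ i j, S j i = -S i j)
    (hT : ∀ i j, T j i = -T i j) : Alt (sW S T) := by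
  refine ⟨?_, ?_, ?_⟩
  · intro a b c d
    unfold sW
    rw [hS a b, hT a b]; ring
  · intro a b c d
    unfold sW
    rw [hS b c, hT b c]; ring
  · intro a b c d
    unfold sW
    rw [hS c d, hT c d]; ring

lemma prodW_eq (wA : ι → ι → ι → ι → ℤ) (wB : κ → κ → κ → κ → ℤ) (σ : Matrix ι ι ℤ)
    (τ : Matrix κ κ ℤ) (a b c d : ι ⊕ κ) : prodW wA wB σ τ a b c d =
      mW wA wB a b c d + sW (fromBlocks σ 0 0 0) (fromBlocks 0 0 0 τ) a b c d := rfl

lemma prodW_alt (wA : ι → ι → ι → ι → ℤ) (wB : κ → κ → κ → κ → ℤ) (σ : Matrix ι ι ℤ)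
    (τ : Matrix κ κ ℤ) (hA : Alt wA) (hB : Alt wB) (hσ : ∀ i j, σ j i = -σ i j)
    (hτ : ∀ i j, τ j i = -τ i j) : Alt (prodW wA wB σ τ) := by
  obtain ⟨m1, m2, m3⟩ := mW_alt wA wB hA hB
  have hS : ∀ i j : ι ⊕ κ, (fromBlocks σ 0 0 0 : Matrix (ι ⊕ κ) (ι ⊕ κ) ℤ) j i =
      -(fromBlocks σ 0 0 0 : Matrix (ι ⊕ κ) (ι ⊕ κ) ℤ) i j := by
    rintro (i | i) (j | j)
    · exact hσ i j
    · exact neg_zero.symm
    · exact neg_zero.symm
    · exact neg_zero.symm
  have hT : ∀ i j : ι ⊕ κ, (fromBlocks 0 0 0 τ : Matrix (ι ⊕ κ) (ι ⊕ κ) ℤ) j i =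
      -(fromBlocks 0 0 0 τ : Matrix (ι ⊕ κ) (ι ⊕ κ) ℤ) i j := by
    rintro (i | i) (j | j)
    · exact neg_zero.symm
    · exact neg_zero.symm
    · exact neg_zero.symm
    · exact hτ i j
  obtain ⟨s1, s2, s3⟩ := sW_alt _ _ hS hT
  refine ⟨?_, ?_, ?_⟩
  · intro a b c d; rw [prodW_eq, prodW_eq, m1, s1]; ring
  · intro a b c d; rw [prodW_eq, prodW_eq, m2, s2]; ring
  · intro a b c d; rw [prodW_eq, prodW_eq, m3, s3]; ring

end

section

variable {ι κ : Type} [LinearOrder ι] [LinearOrder κ]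

/-- the pairs of the ordered sum -/
def ff : (P ι ⊕ P κ) ⊕ (ι × κ) → P (ι ⊕ₗ κ)
  | .inl (.inl p) => ⟨(Sum.inlₗ p.1.1, Sum.inlₗ p.1.2), Sum.Lex.inl_lt_inl_iff.2 p.2⟩
  | .inl (.inr p) => ⟨(Sum.inrₗ p.1.1, Sum.inrₗ p.1.2), Sum.Lex.inr_lt_inr_iff.2 p.2⟩
  | .inr p => ⟨(Sum.inlₗ p.1, Sum.inrₗ p.2), Sum.Lex.inl_lt_inr _ _⟩

lemma ff_surj : Function.Surjective (ff (ι := ι) (κ := κ)) := by
  rintro ⟨⟨a, b⟩, h⟩
  rcases a with i | i <;> rcases b with j | j
  · exact ⟨.inl (.inl ⟨(i, j), Sum.Lex.inl_lt_inl_iff.1 h⟩), rfl⟩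
  · exact ⟨.inr (i, j), rfl⟩
  · exact absurd h Sum.Lex.not_inr_lt_inl
  · exact ⟨.inl (.inr ⟨(i, j), Sum.Lex.inr_lt_inr_iff.1 h⟩), rfl⟩

lemma ff_inj : Function.Injective (ff (ι := ι) (κ := κ)) := by
  intro p q h
  have h1 : ofLex (ff p).1.1 = ofLex (ff q).1.1 := by rw [h]
  have h2 : ofLex (ff p).1.2 = ofLex (ff q).1.2 := by rw [h]
  rcases p with (p | p) | p <;> rcases q with (q | q) | q
  · have e1 : p.1.1 = q.1.1 := Sum.inl.inj h1
    have e2 : p.1.2 = q.1.2 := Sum.inl.inj h2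
    rw [show p = q from Subtype.ext (Prod.ext e1 e2)]
  · exact absurd h1 (by simp [ff])
  · exact absurd h2 (by simp [ff])
  · exact absurd h1 (by simp [ff])
  · have e1 : p.1.1 = q.1.1 := Sum.inr.inj h1
    have e2 : p.1.2 = q.1.2 := Sum.inr.inj h2
    rw [show p = q from Subtype.ext (Prod.ext e1 e2)]
  · exact absurd h1 (by simp [ff])
  · exact absurd h2 (by simp [ff])
  · exact absurd h1 (by simp [ff])
  · have e1 : p.1 = q.1 := Sum.inl.inj h1
    have e2 : p.2 = q.2 := Sum.inr.inj h2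
    rw [show p = q from Prod.ext e1 e2]

/-- the corresponding equivalence -/
noncomputable def ee : (P ι ⊕ P κ) ⊕ (ι × κ) ≃ P (ι ⊕ₗ κ) :=
  Equiv.ofBijective ff ⟨ff_inj, ff_surj⟩

lemma join_ll (x : P ι → ℤ) (y : P κ → ℤ) (p : P ι) : join x y (ff (.inl (.inl p))) = x p := by
  change (if h : p.1.1 < p.1.2 then x ⟨(p.1.1, p.1.2), h⟩ else 0) = x p
  rw [dif_pos p.2]

lemma join_rr (x : P ι → ℤ) (y : P κ → ℤ) (p : P κ) : join x y (ff (.inl (.inr p))) = y p := by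
  change (if h : p.1.1 < p.1.2 then y ⟨(p.1.1, p.1.2), h⟩ else 0) = y p
  rw [dif_pos p.2]

lemma join_lr (x : P ι → ℤ) (y : P κ → ℤ) (p : ι × κ) : join x y (ff (.inr p)) = 0 := rfl

lemma gram_ff (wA : ι → ι → ι → ι → ℤ) (wB : κ → κ → κ → κ → ℤ) (σ : Matrix ι ι ℤ)
    (τ : Matrix κ κ ℤ) (p q : (P ι ⊕ P κ) ⊕ (ι × κ)) :
    gram (prodL wA wB σ τ) (ff p) (ff q) =
        fromBlocks (fromBlocks (gram wA) (vecMulVec (vec σ) (vec τ)) (vecMulVec (vec τ) (vec σ))
          (gram wB)) 0 0 (-(σ ⊗ₖ τ)) p q := by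
  rcases p with (p | p) | p <;> rcases q with (q | q) | q
  all_goals
    simp [gram, prodL, prodW, ff, vec, vecMulVec_apply, mul_comm]

end

theorem proda : PRODA := by
  intro ι κ _ _ _ _ wA wB σ τ hA hB hσ hτ
  have hσ' : ∀ i j, σ j i = -σ i j := fun i j => by
    have := congrFun (congrFun hσ i) j
    simpa using this
  have hτ' : ∀ i j, τ j i = -τ i j := fun i j => by
    have := congrFun (congrFun hτ i) j
    simpa using this
  have hsum : ∀ f : P (ι ⊕ₗ κ) → ℤ, ∑ p, f p = ∑ p : P ι, f (ff (.inl (.inl p))) +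
      ∑ p : P κ, f (ff (.inl (.inr p))) + ∑ p : ι × κ, f (ff (.inr p)) := by
    intro f
    rw [← Equiv.sum_comp ee f, Fintype.sum_sum_type, Fintype.sum_sum_type]
    rfl
  refine ⟨?_, ?_, ?_, ?_, ?_⟩
  · obtain ⟨h1, h2, h3⟩ := prodW_alt wA wB σ τ hA hB hσ' hτ'
    exact ⟨fun a b c d => h1 _ _ _ _, fun a b c d => h2 _ _ _ _, fun a b c d => h3 _ _ _ _⟩
  · refine ⟨ee.symm, ?_⟩
    funext a b
    obtain ⟨p, rfl⟩ := ff_surj a
    obtain ⟨q, rfl⟩ := ff_surj b
    rw [gram_ff, submatrix_apply]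
    have e1 : ∀ r : (P ι ⊕ P κ) ⊕ (ι × κ), ee.symm (ff r) = r := fun r => ee.symm_apply_apply r
    rw [e1, e1]
  · intro x y
    funext a
    obtain ⟨p, rfl⟩ := ff_surj a
    rw [mulVec, dotProduct, hsum]
    simp only [gram_ff, join_ll, join_rr, join_lr]
    rcases p with (p | p) | p
    · rw [join_ll]
      simp only [fromBlocks_apply₁₁, fromBlocks_apply₁₂, vecMulVec_apply, mul_zero,
        Finset.sum_const_zero, add_zero, Pi.add_apply, Pi.smul_apply, smul_eq_mul, mulVec,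
        dotProduct, Finset.sum_mul]
      congr 1
      refine Finset.sum_congr rfl fun r _ => ?_
      ring
    · rw [join_rr]
      simp only [fromBlocks_apply₁₁, fromBlocks_apply₂₁, fromBlocks_apply₂₂, vecMulVec_apply,
        mul_zero, Finset.sum_const_zero, add_zero, Pi.add_apply, Pi.smul_apply, smul_eq_mul,
        mulVec, dotProduct, Finset.sum_mul]
      rw [add_comm]
      congr 1
      refine Finset.sum_congr rfl fun r _ => ?_
      ring
    · rw [join_lr]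
      simp
  · intro x x' y y'
    rw [dotProduct, hsum]
    simp only [join_ll, join_rr, join_lr, mul_zero, Finset.sum_const_zero, add_zero]
    rfl
  · intro σa τb
    funext a
    obtain ⟨p, rfl⟩ := ff_surj a
    rcases p with (p | p) | p
    · rw [join_ll]; rfl
    · rw [join_rr]; rfl
    · rw [join_lr]; rfl

end Pool.Agent.Y407.TW
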